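import Pool.Agent.helper79.SX.Spec

/-! Project sx (MP_5628fe_nt), module PC2. -/

set_option autoImplicit false

open Finset ArithmeticFunction

namespace Pool.Agent.SX

theorem PC2_sum (hSAD : SAD_stmt) (hDIR : DIR_stmt) (α κ' : ℝ) (hα : 0 ≤ α) (hκ : 0 ≤ κ')
    (hLP : LP α κ') (a u Y n : ℕ) (ha : 30 ≤ a) (hu : 8 ≤ u) (haY : a ≤ Y)
    (hn1 : (n + 1) ^ 10 ≤ 2 ^ ((Y + 1) * u)) (hn : 128 ≤ n) :
    ∑ p ∈ Rg n (a * u), 1 / (p : ℝ) * wt n p ≤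
      α * (Real.log (((Y + 1 : ℕ) : ℝ) / (a : ℝ)) - 1 + (a : ℝ) / ((Y + 1 : ℕ) : ℝ)) +
        κ' * (1 - (a : ℝ) / ((Y + 1 : ℕ) : ℝ)) * (14.4269505 / ((a * u : ℕ) : ℝ)) := by
  have hu0 : (0 : ℝ) < (u : ℝ) := by exact_mod_cast (by omega : 0 < u)
  have hau : 240 ≤ a * u := by nlinarith
  have hD := hDIR α κ' hα hκ hLP (a * u) ((Y + 1) * u) (by omega)
    (Nat.mul_le_mul_right u (by omega))
  have e1 : (((Y + 1) * u : ℕ) : ℝ) / ((a * u : ℕ) : ℝ) = ((Y + 1 : ℕ) : ℝ) / (a : ℝ) := by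
    rw [Nat.cast_mul, Nat.cast_mul, mul_div_mul_right _ _ hu0.ne']
  have e2 : ((a * u : ℕ) : ℝ) / (((Y + 1) * u : ℕ) : ℝ) = (a : ℝ) / ((Y + 1 : ℕ) : ℝ) := by
    rw [Nat.cast_mul, Nat.cast_mul, mul_div_mul_right _ _ hu0.ne']
  rw [e1, e2] at hD
  refine le_trans ?_ hD
  have hl2 : 0 < Real.log 2 := Real.log_pos (by norm_num)
  have hH : (0 : ℝ) < (((Y + 1) * u : ℕ) : ℝ) := by
    exact_mod_cast (by positivity : 0 < (Y + 1) * u)
  have hHd : 0 < (((Y + 1) * u : ℕ) : ℝ) * (Real.log 2 / 10) := by positivity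
  have hlogn : 0 < Real.log ((n : ℝ) + 1) := by
    apply Real.log_pos
    have : (128 : ℝ) ≤ n := by exact_mod_cast hn
    linarith
  have hlogn1 : Real.log ((n : ℝ) + 1) ≤ (((Y + 1) * u : ℕ) : ℝ) * (Real.log 2 / 10) := by
    have h1 : ((n : ℝ) + 1) ^ 10 ≤ 2 ^ ((Y + 1) * u) := by exact_mod_cast hn1
    have h2 := Real.log_le_log (by positivity) h1
    rw [Real.log_pow, Real.log_pow] at h2
    push_cast at h2 ⊢
    linarith
  have hterm : ∀ p : ℕ, 0 < p → 1 / (p : ℝ) * wt n p ≤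
      1 / (p : ℝ) * (1 - Real.log p / ((((Y + 1) * u : ℕ) : ℝ) * (Real.log 2 / 10))) := by
    intro p hp
    apply mul_le_mul_of_nonneg_left _ (by positivity)
    unfold wt
    have h1 : (1 : ℝ) ≤ p := by exact_mod_cast hp
    have h2 : 0 ≤ Real.log p := Real.log_nonneg h1
    have h3 := div_le_div_of_nonneg_left h2 hlogn hlogn1
    linarith
  have hsub : Rg n (a * u) ⊆ Bl (a * u) ((Y + 1) * u) := by
    intro p hp
    unfold Rg at hp
    rw [Finset.mem_filter, Finset.mem_range] at hp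
    obtain ⟨h1, h2, h3⟩ := hp
    rw [hSAD.2.1]
    refine ⟨h2, ?_, h3, ?_⟩
    · by_contra hlt
      push Not at hlt
      have h4 : p ^ 10 < 2 ^ (a * u) := by
        calc p ^ 10 ≤ 7 ^ 10 := Nat.pow_le_pow_left (by omega) 10
          _ < 2 ^ 240 := by norm_num
          _ ≤ 2 ^ (a * u) := Nat.pow_le_pow_right (by norm_num) hau
      omega
    · calc p ^ 10 < (n + 1) ^ 10 := Nat.pow_lt_pow_left h1 (by norm_num)
        _ ≤ 2 ^ ((Y + 1) * u) := hn1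
  calc ∑ p ∈ Rg n (a * u), 1 / (p : ℝ) * wt n p
      ≤ ∑ p ∈ Rg n (a * u), 1 / (p : ℝ) *
          (1 - Real.log p / ((((Y + 1) * u : ℕ) : ℝ) * (Real.log 2 / 10))) := by
        apply Finset.sum_le_sum
        intro p hp
        apply hterm
        unfold Rg at hp
        rw [Finset.mem_filter] at hp
        exact hp.2.1.pos
    _ ≤ ∑ p ∈ Bl (a * u) ((Y + 1) * u), 1 / (p : ℝ) *
          (1 - Real.log p / ((((Y + 1) * u : ℕ) : ℝ) * (Real.log 2 / 10))) := by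
        apply Finset.sum_le_sum_of_subset_of_nonneg hsub
        intro p hp _
        rw [hSAD.2.1] at hp
        obtain ⟨h1, h2, h3, h4⟩ := hp
        have hp0 : (0 : ℝ) < p := by exact_mod_cast h1.pos
        apply mul_nonneg (by positivity)
        rw [sub_nonneg, div_le_one hHd]
        have h5 : (p : ℝ) ^ 10 ≤ 2 ^ ((Y + 1) * u) := by exact_mod_cast h4.le
        have h6 := Real.log_le_log (by positivity) h5
        rw [Real.log_pow, Real.log_pow] at h6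
        push_cast at h6 ⊢
        linarith

theorem PC2_cdiv (x y : ℕ) (hy : 0 < y) : (x : ℝ) / y ≤ (cdiv x y : ℝ) := by
  have hy' : (0 : ℝ) < y := by exact_mod_cast hy
  rw [div_le_iff₀ hy']
  have h : x ≤ cdiv x y * y := by
    unfold cdiv
    have h1 := Nat.div_add_mod (x + (y - 1)) y
    have h2 := Nat.mod_lt (x + (y - 1)) hy
    have h3 : (x + (y - 1)) / y * y = y * ((x + (y - 1)) / y) := Nat.mul_comm _ _
    omega
  exact_mod_cast h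

/-- the bounds `dir1`, `dir2` in one statement -/
theorem PC2_dir (A B : ℕ) (u0 u a Y lam : ℕ) (l : ℝ) (hu0 : 8 ≤ u0) (huu : u0 ≤ u) (ha : 30 ≤ a)
    (haY : a ≤ Y) (hl : l ≤ (lam : ℝ) / 10 ^ 9) :
    ((A : ℝ) / 1000) * (l - 1 + (a : ℝ) / ((Y + 1 : ℕ) : ℝ)) +
        ((B : ℝ) / 1000) * (1 - (a : ℝ) / ((Y + 1 : ℕ) : ℝ)) * (14.4269505 / ((a * u : ℕ) : ℝ)) ≤
      ((A * (lam + cdiv (10 ^ 9 * (a * u0)) ((Y + 1) * u0) - 10 ^ 9) +
        cdiv (B * 14426950500 * ((Y + 1) * u0 - a * u0)) ((Y + 1) * u0 * (a * u0)) : ℕ) : ℝ) /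
          10 ^ 12 := by
  have hu0' : (0 : ℝ) < (u0 : ℝ) := by exact_mod_cast (by omega : 0 < u0)
  have hu' : (u0 : ℝ) ≤ u := by exact_mod_cast huu
  have ha' : (0 : ℝ) < (a : ℝ) := by exact_mod_cast (by omega : 0 < a)
  have hY' : (0 : ℝ) < ((Y + 1 : ℕ) : ℝ) := by exact_mod_cast (by omega : 0 < Y + 1)
  have haY' : (a : ℝ) ≤ ((Y + 1 : ℕ) : ℝ) := by exact_mod_cast (by omega : a ≤ Y + 1)
  have c1 := PC2_cdiv (10 ^ 9 * (a * u0)) ((Y + 1) * u0) (by positivity)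
  have c2 := PC2_cdiv (B * 14426950500 * ((Y + 1) * u0 - a * u0)) ((Y + 1) * u0 * (a * u0))
    (by
      have : 0 < a := by omega
      have : 0 < u0 := by omega
      positivity)
  have e1 : ((10 ^ 9 * (a * u0) : ℕ) : ℝ) / (((Y + 1) * u0 : ℕ) : ℝ) =
      10 ^ 9 * ((a : ℝ) / ((Y + 1 : ℕ) : ℝ)) := by
    rw [Nat.cast_mul, Nat.cast_mul, Nat.cast_mul]
    field_simp
    push_cast
    ring
  have e2 : ((B * 14426950500 * ((Y + 1) * u0 - a * u0) : ℕ) : ℝ) /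
      (((Y + 1) * u0 * (a * u0) : ℕ) : ℝ) =
      (B : ℝ) * 14426950500 * (1 - (a : ℝ) / ((Y + 1 : ℕ) : ℝ)) * (1 / ((a : ℝ) * u0)) := by
    have h1 : a * u0 ≤ (Y + 1) * u0 := Nat.mul_le_mul_right u0 (by omega)
    rw [Nat.cast_mul, Nat.cast_sub h1, Nat.cast_mul, Nat.cast_mul, Nat.cast_mul, Nat.cast_mul]
    field_simp
    push_cast
    ring
  rw [e1] at c1
  rw [e2] at c2
  have c3 : ((lam : ℝ) + (cdiv (10 ^ 9 * (a * u0)) ((Y + 1) * u0) : ℝ) - 10 ^ 9) ≤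
      ((lam + cdiv (10 ^ 9 * (a * u0)) ((Y + 1) * u0) - 10 ^ 9 : ℕ) : ℝ) := by
    have h1 : lam + cdiv (10 ^ 9 * (a * u0)) ((Y + 1) * u0) ≤
        (lam + cdiv (10 ^ 9 * (a * u0)) ((Y + 1) * u0) - 10 ^ 9) + 10 ^ 9 := by omega
    have h2 : ((lam : ℝ) + (cdiv (10 ^ 9 * (a * u0)) ((Y + 1) * u0) : ℝ)) ≤
      ((lam + cdiv (10 ^ 9 * (a * u0)) ((Y + 1) * u0) - 10 ^ 9 : ℕ) : ℝ) + 10 ^ 9 := by
      exact_mod_cast h1
    linarith
  have hA : (0 : ℝ) ≤ A := Nat.cast_nonneg A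
  have hB : (0 : ℝ) ≤ B := Nat.cast_nonneg B
  have hq : 0 ≤ 1 - (a : ℝ) / ((Y + 1 : ℕ) : ℝ) := by
    rw [sub_nonneg, div_le_one hY']
    exact haY'
  have c4 : (A : ℝ) * (10 ^ 9 * (l - 1 + (a : ℝ) / ((Y + 1 : ℕ) : ℝ))) ≤
      (A : ℝ) * ((lam + cdiv (10 ^ 9 * (a * u0)) ((Y + 1) * u0) - 10 ^ 9 : ℕ) : ℝ) := by
    apply mul_le_mul_of_nonneg_left _ hA
    refine le_trans ?_ c3
    have h1 : 10 ^ 9 * l ≤ lam := by
      rw [le_div_iff₀ (by positivity)] at hl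
      linarith
    linarith
  have c5 : (14.4269505 : ℝ) / ((a * u : ℕ) : ℝ) ≤ 14.4269505 * (1 / ((a : ℝ) * u0)) := by
    rw [mul_one_div, Nat.cast_mul]
    apply div_le_div_of_nonneg_left (by norm_num) (by positivity)
    exact mul_le_mul_of_nonneg_left hu' ha'.le
  have c6 : (B : ℝ) * (1 - (a : ℝ) / ((Y + 1 : ℕ) : ℝ)) * (14.4269505 / ((a * u : ℕ) : ℝ)) ≤
      (B : ℝ) * (1 - (a : ℝ) / ((Y + 1 : ℕ) : ℝ)) * (14.4269505 * (1 / ((a : ℝ) * u0))) :=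
    mul_le_mul_of_nonneg_left c5 (mul_nonneg hB hq)
  rw [le_div_iff₀ (by positivity)]
  have c8 : (((A : ℝ) / 1000) * (l - 1 + (a : ℝ) / ((Y + 1 : ℕ) : ℝ)) +
        ((B : ℝ) / 1000) * (1 - (a : ℝ) / ((Y + 1 : ℕ) : ℝ)) * (14.4269505 / ((a * u : ℕ) : ℝ))) * 10 ^ 12 =
      (A : ℝ) * (10 ^ 9 * (l - 1 + (a : ℝ) / ((Y + 1 : ℕ) : ℝ))) +
        ((B : ℝ) * (1 - (a : ℝ) / ((Y + 1 : ℕ) : ℝ)) * (14.4269505 / ((a * u : ℕ) : ℝ))) * 10 ^ 9 := by
    ring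
  rw [c8]
  have c9 : ((A * (lam + cdiv (10 ^ 9 * (a * u0)) ((Y + 1) * u0) - 10 ^ 9) +
        cdiv (B * 14426950500 * ((Y + 1) * u0 - a * u0)) ((Y + 1) * u0 * (a * u0)) : ℕ) : ℝ) =
      (A : ℝ) * ((lam + cdiv (10 ^ 9 * (a * u0)) ((Y + 1) * u0) - 10 ^ 9 : ℕ) : ℝ) +
      (cdiv (B * 14426950500 * ((Y + 1) * u0 - a * u0)) ((Y + 1) * u0 * (a * u0)) : ℝ) := by
    rw [Nat.cast_add, Nat.cast_mul A]
  rw [c9]
  have c7 : ((B : ℝ) * (1 - (a : ℝ) / ((Y + 1 : ℕ) : ℝ)) * (14.4269505 * (1 / ((a : ℝ) * u0)))) * 10 ^ 9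
      = (B : ℝ) * 14426950500 * (1 - (a : ℝ) / ((Y + 1 : ℕ) : ℝ)) * (1 / ((a : ℝ) * u0)) := by
    ring
  have c10 := mul_le_mul_of_nonneg_right c6 (by norm_num : (0 : ℝ) ≤ 10 ^ 9)
  rw [c7] at c10
  linarith

theorem PC2_pow (m : ℕ) (hm : 24 ≤ m) : 143 * (10 * m + 9) ^ 2 + 1 ≤ 2 ^ m := by
  induction m, hm using Nat.le_induction with
  | base => norm_num
  | succ k hk ih =>
    rw [pow_succ 2 k]
    nlinarith

theorem PC2_sq (n h : ℕ) (hh : 240 ≤ h) :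
    ∑ p ∈ Rg n h, 1 / (p : ℝ) ^ 2 ≤ 1 / (2 ^ (h / 10) - 1) := by
  have hN : 2 ≤ 2 ^ (h / 10) := by
    calc 2 = 2 ^ 1 := by norm_num
      _ ≤ 2 ^ (h / 10) := Nat.pow_le_pow_right (by norm_num) (by omega)
  have hsub : Rg n h ⊆ Finset.Ioc (2 ^ (h / 10) - 1) n := by
    intro p hp
    unfold Rg at hp
    rw [Finset.mem_filter, Finset.mem_range] at hp
    rw [Finset.mem_Ioc]
    have h1 : 2 ^ (h / 10) ≤ p := by
      by_contra hlt
      push Not at hlt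
      have h2 : p ^ 10 < (2 ^ (h / 10)) ^ 10 := Nat.pow_lt_pow_left hlt (by norm_num)
      rw [← pow_mul] at h2
      have h3 : 2 ^ (h / 10 * 10) ≤ 2 ^ h := Nat.pow_le_pow_right (by norm_num) (by omega)
      have h4 := hp.2.2
      omega
    omega
  have h1 : ∑ p ∈ Rg n h, 1 / (p : ℝ) ^ 2 ≤ ∑ p ∈ Finset.Ioc (2 ^ (h / 10) - 1) n, ((p : ℝ) ^ 2)⁻¹ := by
    simp only [one_div]
    exact Finset.sum_le_sum_of_subset_of_nonneg hsub (fun p _ _ => by positivity)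
  refine h1.trans ?_
  have hcast : (((2 ^ (h / 10) - 1 : ℕ)) : ℝ) = 2 ^ (h / 10) - 1 := by
    rw [Nat.cast_sub (by omega)]
    push_cast
    ring
  by_cases hle : 2 ^ (h / 10) - 1 ≤ n
  · have h2 := sum_Ioc_inv_sq_le_sub (α := ℝ) (k := 2 ^ (h / 10) - 1) (n := n) (by omega) hle
    rw [hcast] at h2
    have h3 : (0 : ℝ) ≤ (n : ℝ)⁻¹ := by positivity
    rw [one_div]
    linarith
  · rw [Finset.Ioc_eq_empty (by omega), Finset.sum_empty]
    have : (2 : ℝ) ≤ 2 ^ (h / 10) := by exact_mod_cast hN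
    apply div_nonneg (by norm_num)
    linarith

theorem PC2 (hPC1 : PC1_stmt) (hPCM : PCM_stmt) (hSAD : SAD_stmt) (hDIR : DIR_stmt)
    (hLPA : LPA_stmt) (hLPM : LPM_stmt) (hXSZ : XSZ_stmt) : PC2_stmt := by
  intro u0 u a Y κ lam L U n bl hu0 huu ha30 ha57 hY150 hY300 hκu hκ34 hn hn1 hn2 hTab hBlk hV hchk
  have hau : 240 ≤ a * u := by nlinarith
  have haY : a ≤ Y := by omega
  unfold chkHi at hchk
  rw [Bool.and_eq_true] at hchk
  obtain ⟨hlam, hsum⟩ := hchk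
  rw [hPCM.1] at hsum
  have hlog := hPCM.2.2.2 (Y + 1) a lam (by omega) (by omega) hlam
  set Sm : ℕ := (bl.map (tm U a Y κ)).sum with hSm
  set v0 : ℕ := dig L (2 * Y - κ) with hv0
  rw [Bool.or_eq_true, Nat.ble_eq, Nat.ble_eq] at hsum
  -- the bound for the sum
  have hS60 : Sm < 2 ^ 60 := by
    rcases hsum with h | h <;> omega
  obtain ⟨hidx, hM2⟩ := hPCM.2.2.1 U a Y κ bl hS60
  have hpc := hPC1 u a Y κ L U n bl (by omega) ha30 haY hY300 hκu (by omega) hn hn1 hn2 hTab hBlk hidx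
  have hP1 := PC2_sum hSAD hDIR (1087 / 1000) (170 / 1000) (by norm_num) (by norm_num) hLPA a u Y n
    ha30 (by omega) haY hn2 hn
  have hP2 := PC2_sum hSAD hDIR 1 (1090 / 1000) (by norm_num) (by norm_num) hLPM a u Y n
    ha30 (by omega) haY hn2 hn
  have hD1 := PC2_dir 1087 170 u0 u a Y lam _ hu0 huu ha30 haY hlog
  have hD2 := PC2_dir 1000 1090 u0 u a Y lam _ hu0 huu ha30 haY hlog
  set W : ℝ := ∑ p ∈ Rg n (a * u), 1 / (p : ℝ) * wt n p with hW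
  set Q : ℝ := ∑ p ∈ Rg n (a * u), 1 / (p : ℝ) ^ 2 with hQ
  -- the main sum
  have hmain : (v0 : ℝ) / 2 ^ 40 + W + M2 U a Y κ bl ≤ 0.975 - 0.0001 := by
    have hM2' : M2 U a Y κ bl ≤ (Sm : ℝ) / 2 ^ 44 := by
      rw [le_div_iff₀ (by positivity)]
      linarith
    have hv0' : (v0 : ℝ) / 2 ^ 40 = ((16 * v0 : ℕ) : ℝ) / 2 ^ 44 := by
      push_cast
      ring
    have hadd : (v0 : ℝ) / 2 ^ 40 + M2 U a Y κ bl ≤ ((16 * v0 + Sm : ℕ) : ℝ) / 2 ^ 44 := by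
      rw [hv0', Nat.cast_add, add_div]
      linarith
    rcases hsum with h | h
    · have hW1 : W ≤ (dir1 (a * u0) ((Y + 1) * u0) lam : ℝ) / 10 ^ 12 := by
        refine hP1.trans ?_
        refine le_trans ?_ hD1
        apply le_of_eq
        norm_num
      have h' : (((16 * v0 + Sm : ℕ) : ℝ) * 10 ^ 12 + (dir1 (a * u0) ((Y + 1) * u0) lam : ℝ) * 2 ^ 44
          + 2 ^ 44 * 10 ^ 8) ≤ 2 ^ 44 * (975 * 10 ^ 9) := by
        exact_mod_cast h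
      rw [le_div_iff₀ (by positivity)] at hadd hW1
      linarith
    · have hW1 : W ≤ (dir2 (a * u0) ((Y + 1) * u0) lam : ℝ) / 10 ^ 12 := by
        refine hP2.trans ?_
        refine le_trans ?_ hD2
        apply le_of_eq
        norm_num
      have h' : (((16 * v0 + Sm : ℕ) : ℝ) * 10 ^ 12 + (dir2 (a * u0) ((Y + 1) * u0) lam : ℝ) * 2 ^ 44
          + 2 ^ 44 * 10 ^ 8) ≤ 2 ^ 44 * (975 * 10 ^ 9) := by
        exact_mod_cast h
      rw [le_div_iff₀ (by positivity)] at hadd hW1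
      linarith
  -- squares
  have hVpos : 0 < V (Pr (a * u)) := (hSAD.2.2.2.2.1 (a * u) (a * u)).1
  have hX := hXSZ n hn
  have hn' : (128 : ℝ) ≤ n := by exact_mod_cast hn
  have hXpos : 0 < Xn n := lt_of_lt_of_le (by positivity) hX.1
  have hQ1 := PC2_sq n (a * u) hau
  rw [← hQ] at hQ1
  set h : ℕ := a * u with hh
  set v : ℝ := V (Pr h) with hv
  have hh0 : (0 : ℝ) < (h : ℝ) := by exact_mod_cast (by omega : 0 < h)
  have hN : (143 : ℝ) * (h : ℝ) ^ 2 ≤ 2 ^ (h / 10) - 1 := by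
    have h1 := PC2_pow (h / 10) (by omega)
    have h2 : h ≤ 10 * (h / 10) + 9 := by omega
    have h3 : 143 * h ^ 2 + 1 ≤ 2 ^ (h / 10) := by
      refine le_trans ?_ h1
      have := Nat.pow_le_pow_left h2 2
      omega
    have h4 : (143 : ℝ) * (h : ℝ) ^ 2 + 1 ≤ 2 ^ (h / 10) := by exact_mod_cast h3
    linarith
  have hQ2 : 2 * Q ≤ 0.00005 * v := by
    have h1 : 1 / ((2 : ℝ) ^ (h / 10) - 1) ≤ 1 / (143 * (h : ℝ) ^ 2) :=
      one_div_le_one_div_of_le (by positivity) hN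
    have h2 : Q ≤ 1 / (143 * (h : ℝ) ^ 2) := hQ1.trans h1
    have h3 : 2 * (1 / (143 * (h : ℝ) ^ 2)) ≤ 0.00005 * v := by
      rw [mul_one_div, div_le_iff₀ (by positivity)]
      nlinarith
    linarith
  -- the last term
  have hnu : 4641430 * (u : ℝ) ^ 2 ≤ n := by
    have h1 : 2 ^ (15 * u) < n + 1 := by
      by_contra hle
      push Not at hle
      have h2 : (n + 1) ^ 10 ≤ (2 ^ (15 * u)) ^ 10 := Nat.pow_le_pow_left hle 10
      rw [← pow_mul] at h2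
      have h3 : 2 ^ (15 * u * 10) ≤ 2 ^ (Y * u) := by
        apply Nat.pow_le_pow_right (by norm_num)
        nlinarith
      omega
    have h2 : u ^ 2 ≤ 2 ^ (2 * u) := by
      have h3 : u ≤ 2 ^ u := Nat.lt_two_pow_self.le
      calc u ^ 2 ≤ (2 ^ u) ^ 2 := Nat.pow_le_pow_left h3 2
        _ = 2 ^ (2 * u) := by rw [← pow_mul, mul_comm]
    have h3 : 2 ^ 104 ≤ 2 ^ (13 * u) := Nat.pow_le_pow_right (by norm_num) (by omega)
    have h4 : 2 ^ (15 * u) = 2 ^ (13 * u) * 2 ^ (2 * u) := by rw [← pow_add]; congr 1; ring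
    have h5 : 4641430 * u ^ 2 ≤ 2 ^ (15 * u) := by
      rw [h4]
      exact Nat.mul_le_mul (le_trans (by norm_num) h3) h2
    have h6 : 4641430 * u ^ 2 ≤ n := by omega
    exact_mod_cast h6
  have hhu : (h : ℝ) ^ 2 ≤ 3249 * (u : ℝ) ^ 2 := by
    have h1 : h ≤ 57 * u := by rw [hh]; exact Nat.mul_le_mul_right u ha57
    have h2 := Nat.pow_le_pow_left h1 2
    have h3 : h ^ 2 ≤ 3249 * u ^ 2 := by
      refine h2.trans (le_of_eq ?_)
      ring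
    exact_mod_cast h3
  have hlast : 2 * (n : ℝ) ≤ 0.00005 * (Xn n * v) := by
    have h1 : (n : ℝ) * (1428.5 * (h : ℝ) ^ 2 + 1) ≤ (n : ℝ) * n := by
      apply mul_le_mul_of_nonneg_left _ (by positivity)
      have hu1 : (1 : ℝ) ≤ (u : ℝ) ^ 2 := by
        have : (1 : ℝ) ≤ u := by exact_mod_cast (by omega : 1 ≤ u)
        nlinarith
      nlinarith
    have h2 : 280 / (h : ℝ) ^ 2 ≤ v := by
      rw [div_le_iff₀ (by positivity)]
      exact hV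
    have h3 : (n : ℝ) ^ 2 / 10 * (280 / (h : ℝ) ^ 2) ≤ Xn n * v :=
      mul_le_mul hX.1 h2 (by positivity) hXpos.le
    have h4 : 2 * (n : ℝ) ≤ 0.00005 * ((n : ℝ) ^ 2 / 10 * (280 / (h : ℝ) ^ 2)) := by
      have e : 0.00005 * ((n : ℝ) ^ 2 / 10 * (280 / (h : ℝ) ^ 2)) = 0.0014 * (n : ℝ) ^ 2 / (h : ℝ) ^ 2 := by
        field_simp
        ring
      rw [e, le_div_iff₀ (by positivity)]
      nlinarith
    linarith
  have hfin : Xn n * v * ((v0 : ℝ) / 2 ^ 40 + W + M2 U a Y κ bl) ≤ Xn n * v * (0.975 - 0.0001) :=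
    mul_le_mul_of_nonneg_left hmain (by positivity)
  have hQ3 : Xn n * (2 * Q) ≤ Xn n * (0.00005 * v) := mul_le_mul_of_nonneg_left hQ2 hXpos.le
  nlinarith [hpc, hfin, hQ3, hlast]

end Pool.Agent.SX
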